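import Pool.Agent.Helper76.PB.GoalsV

/-!
# Project B (MP_fc6b1e_nt): packet VAK (helper57)

An element of type `P` which is a `p`-th power in `M₂` is a `p`-th power.
-/

set_option autoImplicit false
set_option linter.unusedSectionVars false

namespace Pool.Agent.Helper57.PB

open NumberField Polynomial Module IsDedekindDomain
open Pool.Agent.Helper51.RP Pool.Agent.Helper42.RD Pool.Agent.Helper42.PP Pool.Agent.Helper42.PP1
open Pool.Agent.Helper42.PB Pool.Agent.Helper76.PP Pool.Agent.Helper76.PB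

/-- Descent of `p`-th powers in an extension of degree prime to `p`. -/
theorem pw_descent {p : ℕ} {M N : Type} [Field M] [Field N] [Algebra M N]
    (hc : (finrank M N).Coprime p) (x : Mˣ) (z : N) (hz : z ^ p = algebraMap M N (x : M)) :
    Pw p x := by
  have hp0 : p ≠ 0 ∨ p = 0 := by tauto
  rcases hp0 with hp0 | hp0
  swap
  · subst hp0
    refine ⟨1, ?_⟩
    rw [pow_zero] at hz
    have h1 : (x : M) = 1 := by
      apply (algebraMap M N).injective
      rw [← hz, map_one]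
    rw [pow_zero]
    exact Units.ext h1
  have hz0 : z ≠ 0 := by
    rintro rfl
    rw [zero_pow hp0] at hz
    exact x.ne_zero ((map_eq_zero _).1 hz.symm)
  set u : Nˣ := Units.mk0 z hz0 with hu
  set v : Mˣ := nrm M N u with hv
  have h1 : v ^ p = x ^ finrank M N := by
    apply Units.ext
    rw [Units.val_pow_eq_pow_val, Units.val_pow_eq_pow_val]
    show (Algebra.norm M (z : N)) ^ p = _
    rw [← map_pow, hz, Algebra.norm_algebraMap]
  have h2 := Nat.gcd_eq_gcd_ab (finrank M N) p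
  rw [hc.gcd_eq_one] at h2
  refine ⟨v ^ (Nat.gcdA (finrank M N) p) * x ^ (Nat.gcdB (finrank M N) p), ?_⟩
  have h3 : x = x ^ ((finrank M N : ℤ) * Nat.gcdA (finrank M N) p +
      (p : ℤ) * Nat.gcdB (finrank M N) p) := by
    rw [← h2]
    simp
  conv_lhs => rw [h3]
  rw [zpow_add, zpow_mul, zpow_natCast, ← h1, mul_pow, zpow_mul, zpow_natCast, ← zpow_natCast v p,
    ← zpow_mul, ← zpow_natCast x p, ← zpow_mul, ← zpow_natCast (v ^ _) p, ← zpow_mul,
    ← zpow_natCast (x ^ _) p, ← zpow_mul, mul_comm (p : ℤ) (Nat.gcdA _ _),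
    mul_comm (p : ℤ) (Nat.gcdB _ _)]

section main

variable {p : ℕ} [hp : Fact p.Prime] {K M K₁ M₁ J M₂ : Type} [Field K] [NumberField K] [Field M]
  [NumberField M] [Field K₁] [NumberField K₁] [Field M₁] [NumberField M₁] [Field J]
  [NumberField J] [Field M₂] [NumberField M₂] [Algebra K M] [Algebra K K₁] [Algebra K M₁]
  [Algebra M M₁] [Algebra K₁ M₁] [Algebra K J] [Algebra K M₂] [Algebra M M₂] [Algebra K₁ M₂]
  [Algebra M₁ M₂] [Algebra J M₂] {ε : K₁} {δ : M ≃ₐ[K] M} {P : (ZMod p)[X]} {a₀ : M₂ˣ}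

/-- The automorphisms trivial on `J` commute with the automorphisms trivial on `M₁`. -/
theorem comm_of (hB : SitB p K M K₁ M₁ J M₂ ε δ P a₀) (τ g : M₂ ≃ₐ[K] M₂)
    (hτ : ∀ x : J, τ (algebraMap J M₂ x) = algebraMap J M₂ x)
    (hg : ∀ x : M₁, g (algebraMap M₁ M₂ x) = algebraMap M₁ M₂ x) : τ * g = g * τ := by
  have := hB.t1
  have := hB.t4
  have := hB.gJ
  have := hB.gM₂
  have := hB.sit.gMK
  have hg' : ∀ x : M₁, g.symm (algebraMap M₁ M₂ x) = algebraMap M₁ M₂ x := fun x => by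
    rw [AlgEquiv.symm_apply_eq, hg]
  have hτ' : ∀ x : J, τ.symm (algebraMap J M₂ x) = algebraMap J M₂ x := fun x => by
    rw [AlgEquiv.symm_apply_eq, hτ]
  have h1 : τ * g * τ⁻¹ * g⁻¹ = 1 := by
    apply hB.lin₂
    · intro x
      show τ (g (τ.symm (g.symm (algebraMap M₁ M₂ x)))) = algebraMap M₁ M₂ x
      rw [hg', ← AlgEquiv.restrictNormal_commutes τ.symm M₁ x, hg,
        AlgEquiv.restrictNormal_commutes τ.symm M₁ x, AlgEquiv.apply_symm_apply]
    · intro x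
      show τ (g (τ.symm (g.symm (algebraMap J M₂ x)))) = algebraMap J M₂ x
      rw [← AlgEquiv.restrictNormal_commutes g.symm J x, hτ',
        AlgEquiv.restrictNormal_commutes g.symm J x, AlgEquiv.apply_symm_apply, hτ]
  have h2 : τ * g * τ⁻¹ = g := by
    rw [← mul_inv_eq_one]
    exact h1
  exact mul_inv_eq_iff_eq_mul.1 h2

/-- Extension of an automorphism of a subfield of degree prime to `p`, trivial on `J`. -/
theorem exists_ext (hB : SitB p K M K₁ M₁ J M₂ ε δ P a₀) (F : Type) [Field F] [Algebra K F]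
    [Algebra F M₂] [IsScalarTower K F M₂] [IsGalois K F] [FiniteDimensional K F]
    (hc : (finrank K F).Coprime p) (g : F ≃ₐ[K] F) :
    ∃ τ : M₂ ≃ₐ[K] M₂, (∀ x : F, τ (algebraMap F M₂ x) = algebraMap F M₂ (g x)) ∧
      ∀ x : J, τ (algebraMap J M₂ x) = algebraMap J M₂ x := by
  have := hB.t4
  have := hB.gJ
  have := hB.gM₂
  obtain ⟨l, hl⟩ := hB.degJ
  obtain ⟨τ₀, hτ₀⟩ := AlgEquiv.restrictNormalHom_surjective (F := K) (K₁ := F) (E := M₂) g
  have hcop : (finrank K F).Coprime (p ^ l) := Nat.Coprime.pow_right l hc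
  obtain ⟨e, he1, he2⟩ := Nat.chineseRemainder hcop 1 0
  refine ⟨τ₀ ^ e, ?_, ?_⟩
  · intro x
    rw [← AlgEquiv.restrictNormal_commutes (τ₀ ^ e) F x]
    congr 1
    have h1 : (τ₀ ^ e).restrictNormal F = g := by
      show AlgEquiv.restrictNormalHom F (τ₀ ^ e) = g
      rw [map_pow, hτ₀]
      have h2 : g ^ finrank K F = 1 := by
        rw [← IsGalois.card_aut_eq_finrank, Nat.card_eq_fintype_card]
        exact pow_card_eq_one
      have h3 : e ≡ 1 [MOD orderOf g] := he1.of_dvd (orderOf_dvd_of_pow_eq_one h2)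
      have h4 := pow_eq_pow_iff_modEq.2 h3
      rw [h4, pow_one]
    rw [h1]
  · intro x
    rw [← AlgEquiv.restrictNormal_commutes (τ₀ ^ e) J x]
    congr 1
    have h1 : (τ₀ ^ e).restrictNormal J = 1 := by
      show AlgEquiv.restrictNormalHom J (τ₀ ^ e) = 1
      rw [map_pow]
      have h2 : (AlgEquiv.restrictNormalHom J τ₀) ^ (p ^ l) = 1 := by
        rw [← hl, ← IsGalois.card_aut_eq_finrank, Nat.card_eq_fintype_card]
        exact pow_card_eq_one
      obtain ⟨c, hc⟩ := (Nat.modEq_zero_iff_dvd.1 he2)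
      rw [hc, pow_mul, h2, one_pow]
    rw [h1]
    rfl

theorem fix_pow {F : Type} [Field F] [Algebra F M₂] (τ : M₂ ≃ₐ[K] M₂)
    (h : ∀ x : F, τ (algebraMap F M₂ x) = algebraMap F M₂ x) (n : ℕ) (x : F) :
    (τ ^ n) (algebraMap F M₂ x) = algebraMap F M₂ x := by
  induction n with
  | zero => rfl
  | succ n ih =>
    rw [pow_succ]
    show (τ ^ n) (τ (algebraMap F M₂ x)) = _
    rw [h, ih]

theorem ext_pow {F : Type} [Field F] [Algebra K F] [Algebra F M₂] (τ : M₂ ≃ₐ[K] M₂)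
    (g : F ≃ₐ[K] F) (h : ∀ x : F, τ (algebraMap F M₂ x) = algebraMap F M₂ (g x)) (n : ℕ) (x : F) :
    (τ ^ n) (algebraMap F M₂ x) = algebraMap F M₂ ((g ^ n) x) := by
  induction n generalizing x with
  | zero => rfl
  | succ n ih =>
    rw [pow_succ, pow_succ]
    show (τ ^ n) (τ (algebraMap F M₂ x)) = _
    rw [h, ih]
    rfl

theorem root_pow {e : M₂} {n : ℕ} (τ : M₂ ≃ₐ[K] M₂) (h : τ e = e ^ n) (j : ℕ) :
    (τ ^ j) e = e ^ (n ^ j) := by
  induction j with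
  | zero => rw [pow_zero, pow_zero, pow_one]; rfl
  | succ j ih =>
    rw [pow_succ]
    show (τ ^ j) (τ e) = _
    rw [h, map_pow, ih, ← pow_mul, pow_succ]

/-- (1) -/
theorem conj_pow {e y : M₂} {a n : ℕ} (τ g : M₂ ≃ₐ[K] M₂) (hc : τ * g = g * τ)
    (h : τ e = e ^ n) (hg : g y = e ^ a * y) (j : ℕ) :
    g ((τ ^ j) y) = e ^ (a * n ^ j) * (τ ^ j) y := by
  have h1 : Commute τ g := hc
  have h2 : g * τ ^ j = τ ^ j * g := (h1.pow_left j).eq.symm
  have h3 : g ((τ ^ j) y) = (τ ^ j) (g y) := by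
    have := congrArg (fun f : M₂ ≃ₐ[K] M₂ => f y) h2
    exact this
  rw [h3, hg, map_mul, map_pow, root_pow τ h, ← pow_mul, mul_comm a]

/-- (2) -/
theorem eval_zero (hB : SitB p K M K₁ M₁ J M₂ ε δ P a₀) (x w : Mˣ) (hw : pol P δ x = w ^ p)
    (y : M₂) (hy : y ^ p = algebraMap M M₂ (x : M)) (τ g : M₂ ≃ₐ[K] M₂) (hc : τ * g = g * τ)
    (hg : ∀ x : M₁, g (algebraMap M₁ M₂ x) = algebraMap M₁ M₂ x)
    (hτ : ∀ x : M, τ (algebraMap M M₂ x) = algebraMap M M₂ (δ x)) {a n : ℕ}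
    (h : τ (algebraMap K₁ M₂ ε) = (algebraMap K₁ M₂ ε) ^ n)
    (hgy : g y = (algebraMap K₁ M₂ ε) ^ a * y) (ha : ¬ p ∣ a) : P.eval (n : ZMod p) = 0 := by
  have := hB.t1
  have := hB.t2
  have := hB.t3
  have hp0 : p ≠ 0 := hp.out.ne_zero
  have hprim : IsPrimitiveRoot (algebraMap K₁ M₂ ε) p :=
    hB.sit.prim.map_of_injective (algebraMap K₁ M₂).injective
  set e := algebraMap K₁ M₂ ε with he
  have he0 : e ≠ 0 := hprim.ne_zero hp0
  have hge : g e = e := by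
    rw [he, IsScalarTower.algebraMap_apply K₁ M₁ M₂, hg]
  have hy0 : y ≠ 0 := by
    rintro rfl
    rw [zero_pow hp0] at hy
    exact x.ne_zero ((map_eq_zero _).1 hy.symm)
  set Y : M₂ := ∏ j ∈ P.support, ((τ ^ j) y) ^ (P.coeff j).val with hY
  have hY0 : Y ≠ 0 := Finset.prod_ne_zero_iff.2 fun j _ => pow_ne_zero _
    ((map_ne_zero_iff _ (τ ^ j).injective).2 hy0)
  have hYp : Y ^ p = (algebraMap M M₂ (w : M)) ^ p := by
    rw [hY, ← Finset.prod_pow, ← map_pow, ← Units.val_pow_eq_pow_val, ← hw]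
    unfold pol
    rw [MonoidHom.finsetProd_apply, Units.coe_prod, map_prod]
    refine Finset.prod_congr rfl fun j _ => ?_
    rw [← pow_mul, mul_comm, pow_mul, ← map_pow, hy, ext_pow τ δ hτ, MonoidHom.pow_apply,
      Units.val_pow_eq_pow_val, map_pow]
    rfl
  have hw0 : algebraMap M M₂ (w : M) ≠ 0 := (_root_.map_ne_zero _).2 w.ne_zero
  obtain ⟨b, -, hb⟩ := hprim.eq_pow_of_pow_eq_one (ξ := Y / algebraMap M M₂ (w : M)) (by
    rw [div_pow, hYp, div_self (pow_ne_zero _ hw0)])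
  have hYb : Y = e ^ b * algebraMap M M₂ (w : M) := by
    rw [hb, div_mul_cancel₀ _ hw0]
  have hgY : g Y = Y := by
    rw [hYb, map_mul, map_pow, hge, IsScalarTower.algebraMap_apply M M₁ M₂, hg]
  have hgY' : g Y = e ^ (∑ j ∈ P.support, (a * n ^ j) * (P.coeff j).val) * Y := by
    rw [hY, map_prod, ← Finset.prod_pow_eq_pow_sum, ← Finset.prod_mul_distrib]
    refine Finset.prod_congr rfl fun j _ => ?_
    rw [map_pow, conj_pow τ g hc h hgy, mul_pow, ← pow_mul]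
  have h1 : e ^ (∑ j ∈ P.support, (a * n ^ j) * (P.coeff j).val) = 1 := by
    rw [hgY] at hgY'
    have h2 := mul_right_cancel₀ hY0 ((one_mul Y).trans hgY')
    exact h2.symm
  have h2 := (hprim.pow_eq_one_iff_dvd _).1 h1
  rw [← ZMod.natCast_eq_zero_iff] at h2
  have h3 : ((∑ j ∈ P.support, (a * n ^ j) * (P.coeff j).val : ℕ) : ZMod p) =
      a * P.eval (n : ZMod p) := by
    rw [Polynomial.eval_eq_sum, Polynomial.sum, Nat.cast_sum, Finset.mul_sum]
    refine Finset.sum_congr rfl fun j _ => ?_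
    push_cast
    rw [ZMod.natCast_zmod_val]
    ring
  rw [h3] at h2
  rcases mul_eq_zero.1 h2 with h4 | h4
  · exact absurd ((ZMod.natCast_eq_zero_iff _ _).1 h4) ha
  · exact h4

/-- (3) -/
theorem fix_root (hB : SitB p K M K₁ M₁ J M₂ ε δ P a₀) (x : Mˣ)
    (y : M₂) (hy : y ^ p = algebraMap M M₂ (x : M)) (τ g : M₂ ≃ₐ[K] M₂) (hc : τ * g = g * τ)
    (hg : ∀ x : M₁, g (algebraMap M₁ M₂ x) = algebraMap M₁ M₂ x)
    (hτ : ∀ x : M, τ (algebraMap M M₂ x) = algebraMap M M₂ x) {a : ℕ}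
    (hgy : g y = (algebraMap K₁ M₂ ε) ^ a * y) (ha : ¬ p ∣ a) :
    τ (algebraMap K₁ M₂ ε) = algebraMap K₁ M₂ ε := by
  have := hB.t1
  have := hB.t2
  have := hB.t3
  have hp0 : p ≠ 0 := hp.out.ne_zero
  have hprim : IsPrimitiveRoot (algebraMap K₁ M₂ ε) p :=
    hB.sit.prim.map_of_injective (algebraMap K₁ M₂).injective
  set e := algebraMap K₁ M₂ ε with he
  have he0 : e ≠ 0 := hprim.ne_zero hp0
  have hge : g e = e := by
    rw [he, IsScalarTower.algebraMap_apply K₁ M₁ M₂, hg]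
  have hy0 : y ≠ 0 := by
    rintro rfl
    rw [zero_pow hp0] at hy
    exact x.ne_zero ((map_eq_zero _).1 hy.symm)
  obtain ⟨n, -, hn⟩ := hprim.eq_pow_of_pow_eq_one (ξ := τ e) (by
    rw [← map_pow, hprim.pow_eq_one, map_one])
  obtain ⟨b, -, hb⟩ := hprim.eq_pow_of_pow_eq_one (ξ := τ y / y) (by
    rw [div_pow, ← map_pow, hy, hτ, div_self ((_root_.map_ne_zero _).2 x.ne_zero)])
  have hyb : τ y = e ^ b * y := by
    rw [hb, div_mul_cancel₀ _ hy0]
  have h1 : τ (g y) = g (τ y) := congrArg (fun f : M₂ ≃ₐ[K] M₂ => f y) hc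
  rw [hgy, hyb, map_mul, map_mul, map_pow, map_pow, hge, hyb, hgy, ← hn, ← mul_assoc,
    ← mul_assoc, ← pow_mul] at h1
  have h2 := mul_right_cancel₀ hy0 h1
  rw [mul_comm (e ^ b)] at h2
  have h3 := mul_right_cancel₀ (pow_ne_zero b he0) h2
  -- `e^(n a) = e^a`
  have h4 : (e ^ n / e) ^ a = 1 := by
    rw [div_pow, ← pow_mul, h3, div_self (pow_ne_zero a he0)]
  have h5 : (e ^ n / e) ^ p = 1 := by
    rw [div_pow, ← pow_mul, mul_comm, pow_mul, hprim.pow_eq_one, one_pow, div_one]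
  have h6 : orderOf (e ^ n / e) ∣ Nat.gcd a p :=
    Nat.dvd_gcd (orderOf_dvd_of_pow_eq_one h4) (orderOf_dvd_of_pow_eq_one h5)
  have h7 : Nat.gcd a p = 1 := by
    rw [Nat.gcd_comm]
    exact (Nat.Prime.coprime_iff_not_dvd hp.out).2 ha
  rw [h7, Nat.dvd_one, orderOf_eq_one_iff, div_eq_one_iff_eq he0] at h6
  rw [← hn, h6]

end main

theorem nsig_of {p : ℕ} {K K₁ : Type} [Field K] [Field K₁] [Algebra K K₁] {ε : K₁}
    (hε : IsPrimitiveRoot ε p) (hp0 : p ≠ 0) {σ : K₁ ≃ₐ[K] K₁} {n : ℕ} (h : σ ε = ε ^ n) :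
    nsig p ε σ = n := by
  have h1 : ∃ n : ℕ, σ ε = ε ^ n := ⟨n, h⟩
  unfold nsig
  rw [dif_pos h1]
  have h2 : ε ^ h1.choose = ε ^ n := h1.choose_spec.symm.trans h
  obtain ⟨u, rfl⟩ := hε.isUnit hp0
  have hu : IsPrimitiveRoot u p := IsPrimitiveRoot.coe_units_iff.1 hε
  rw [← Units.val_pow_eq_pow_val, ← Units.val_pow_eq_pow_val, Units.val_inj,
    pow_eq_pow_iff_modEq, ← hu.eq_orderOf] at h2
  rw [ZMod.natCast_eq_natCast_iff]
  exact h2

/-- PACKET VAK. -/
theorem v_ak : V_AK := by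
  intro p _ K M K₁ M₁ J M₂ _ _ _ _ _ _ _ _ _ _ _ _ _ _ _ _ _ _ _ _ _ _ _ ε δ P a₀ hB hN x hx hy
  obtain ⟨y, hy⟩ := hy
  obtain ⟨w, hw⟩ := hx
  have hp : p.Prime := Fact.out
  have hp0 : p ≠ 0 := hp.ne_zero
  have := hB.t1
  have := hB.t2
  have := hB.t3
  have := hB.t4
  have := hB.gJ
  have := hB.gM₂
  have := hB.sit.st1
  have := hB.sit.st2
  have := hB.sit.gM
  have := hB.sit.gMK
  have tM : IsScalarTower K M M₂ := by
    apply IsScalarTower.of_algebraMap_eq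
    intro z
    rw [IsScalarTower.algebraMap_apply K M₁ M₂, IsScalarTower.algebraMap_apply K M M₁,
      ← IsScalarTower.algebraMap_apply M M₁ M₂]
  by_contra hcon
  have hprim : IsPrimitiveRoot (algebraMap K₁ M₂ ε) p :=
    hB.sit.prim.map_of_injective (algebraMap K₁ M₂).injective
  have hy0 : y ≠ 0 := by
    rintro rfl
    rw [zero_pow hp0] at hy
    exact x.ne_zero ((map_eq_zero _).1 hy.symm)
  -- the element `y` is not in `M₁`
  have hyM : y ∉ Set.range (algebraMap M₁ M₂) := by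
    rintro ⟨z, rfl⟩
    apply hcon
    apply pw_descent hB.sit.c1 x z
    apply (algebraMap M₁ M₂).injective
    rw [map_pow, hy, ← IsScalarTower.algebraMap_apply]
  have hgal : IsGalois M₁ M₂ := IsGalois.tower_top_of_isGalois K M₁ M₂
  obtain ⟨g₁, hg₁⟩ : ∃ g₁ : M₂ ≃ₐ[M₁] M₂, g₁ y ≠ y := by
    by_contra h
    push Not at h
    exact hyM ((IsGalois.mem_range_algebraMap_iff_fixed y).2 h)
  set g : M₂ ≃ₐ[K] M₂ := g₁.restrictScalars K with hg
  have hgM : ∀ z : M₁, g (algebraMap M₁ M₂ z) = algebraMap M₁ M₂ z := fun z => g₁.commutes z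
  obtain ⟨a, -, ha⟩ := hprim.eq_pow_of_pow_eq_one (ξ := g y / y) (by
    rw [div_pow, ← map_pow, hy, IsScalarTower.algebraMap_apply M M₁ M₂, hgM,
      div_self ((_root_.map_ne_zero _).2 ((_root_.map_ne_zero _).2 x.ne_zero))])
  have hgy : g y = (algebraMap K₁ M₂ ε) ^ a * y := by
    rw [ha, div_mul_cancel₀ _ hy0]
  have hpa : ¬ p ∣ a := by
    intro h
    rw [(hprim.pow_eq_one_iff_dvd a).2 h, one_mul] at hgy
    exact hg₁ hgy
  -- the automorphism `τ`
  obtain ⟨τ, hτM, hτJ⟩ := exists_ext hB M hB.sit.copm δ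
  obtain ⟨n, -, hn⟩ := hprim.eq_pow_of_pow_eq_one (ξ := τ (algebraMap K₁ M₂ ε)) (by
    rw [← map_pow, hprim.pow_eq_one, map_one])
  have hPn : P.eval (n : ZMod p) = 0 :=
    eval_zero hB x w hw y hy τ g (comm_of hB τ g hτJ hgM) hgM hτM hn.symm hgy hpa
  -- the root of `P`
  have hroot : AdjoinRoot.root P = algebraMap (ZMod p) (AdjoinRoot P) (n : ZMod p) := by
    have h1 : (X - C (n : ZMod p)) ∣ P := Polynomial.dvd_iff_isRoot.2 hPn
    have h2 : Associated (X - C (n : ZMod p)) P :=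
      (Polynomial.irreducible_X_sub_C _).associated_of_dvd hB.sit.irr h1
    have h3 : P ∣ X - C (n : ZMod p) := h2.symm.dvd
    have h4 := AdjoinRoot.mk_eq_zero.2 h3
    rw [map_sub, AdjoinRoot.mk_X, AdjoinRoot.mk_C, sub_eq_zero] at h4
    exact h4
  have hnm : (n : ZMod p) ^ finrank K M = 1 := by
    obtain ⟨Q, hQ⟩ := hB.sit.dvdP
    have h1 := congrArg (fun f : (ZMod p)[X] => f.eval (n : ZMod p)) hQ
    simp only [eval_sub, eval_pow, eval_X, eval_one, eval_mul, hPn, zero_mul] at h1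
    exact sub_eq_zero.1 h1
  have hn0 : (n : ZMod p) ≠ 0 := by
    intro h
    rw [h, zero_pow (Module.finrank_pos (R := K) (M := M)).ne'] at hnm
    exact zero_ne_one hnm
  have : Fact (Irreducible P) := ⟨hB.sit.irr⟩
  -- a functional
  obtain ⟨tr, htr⟩ : ∃ tr : AdjoinRoot P →ₗ[ZMod p] ZMod p, tr ≠ 0 := by
    by_contra hall
    push Not at hall
    have h1 : (1 : AdjoinRoot P) = 0 := by
      rw [← Module.forall_dual_apply_eq_zero_iff (ZMod p)]
      intro φ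
      rw [hall φ]
      rfl
    exact one_ne_zero h1
  obtain ⟨g₂, i, σ, hi, h1, h2, h3⟩ := hN tr htr 1 (-tr 1) one_ne_zero
  apply h3
  -- extend `g₂`
  have hfin : finrank K M₁ = finrank K M * finrank M M₁ := (Module.finrank_mul_finrank K M M₁).symm
  have hcop : (finrank K M₁).Coprime p := by
    rw [hfin]
    exact Nat.Coprime.mul_left hB.sit.copm hB.sit.c1
  obtain ⟨ρ, hρM, hρJ⟩ := exists_ext hB M₁ hcop g₂
  have hkey : ((τ ^ i)⁻¹ * ρ) (algebraMap K₁ M₂ ε) = algebraMap K₁ M₂ ε := by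
    have hJ : ∀ z : J, ((τ ^ i)⁻¹ * ρ) (algebraMap J M₂ z) = algebraMap J M₂ z := by
      intro z
      show (τ ^ i).symm (ρ (algebraMap J M₂ z)) = _
      rw [hρJ, AlgEquiv.symm_apply_eq, fix_pow τ hτJ]
    apply fix_root hB x y hy _ g (comm_of hB _ g hJ hgM) hgM _ hgy hpa
    intro z
    show (τ ^ i).symm (ρ (algebraMap M M₂ z)) = _
    rw [AlgEquiv.symm_apply_eq, ext_pow τ δ hτM, IsScalarTower.algebraMap_apply M M₁ M₂, hρM, h1,
      ← IsScalarTower.algebraMap_apply M M₁ M₂]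
  have hρε : ρ (algebraMap K₁ M₂ ε) = (algebraMap K₁ M₂ ε) ^ (n ^ i) := by
    rw [← root_pow τ hn.symm i]
    have h4 : (τ ^ i).symm (ρ (algebraMap K₁ M₂ ε)) = algebraMap K₁ M₂ ε := hkey
    rw [AlgEquiv.symm_apply_eq] at h4
    exact h4
  have hσ : σ ε = ε ^ (n ^ i) := by
    apply (algebraMap K₁ M₂).injective
    rw [map_pow, ← hρε, IsScalarTower.algebraMap_apply K₁ M₁ M₂ ε, hρM, h2,
      ← IsScalarTower.algebraMap_apply K₁ M₁ M₂]
  rw [nsig_of hB.sit.prim hp0 hσ, hroot, ← map_pow, one_mul, Algebra.algebraMap_eq_smul_one,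
    map_smul, smul_eq_mul]
  have h5 : (n : ZMod p) ^ (finrank K M - i) = (((n ^ i : ℕ) : ZMod p))⁻¹ := by
    push_cast
    apply eq_inv_of_mul_eq_one_left
    rw [← pow_add, Nat.sub_add_cancel hi.le, hnm]
  rw [h5]
  ring

end Pool.Agent.Helper57.PB
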